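import Pool.Agent.H697.UG.Sound

/-!
# Completeness of the algorithm on games without an induced forest
-/

namespace Pool.Agent.H697.UG

open Pool.Agent.NPC Pool.Agent.H697.Forest Finset

/-- The pairs of edges which close to a walk of length four. -/
def N4 (F : Finset (ℕ × ℕ)) : Finset ((ℕ × ℕ) × (ℕ × ℕ)) :=
  (F ×ˢ F).filter fun p => (p.2.1, p.1.2) ∈ F ∧ (p.1.1, p.2.2) ∈ F

theorem Q_le (F : Finset (ℕ × ℕ)) : Q F ≤ (N4 F).card := by
  classical
  set U := F.image Prod.fst with hU
  set W := F.image Prod.snd with hW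
  have h1 : Q F = (((U ×ˢ U) ×ˢ (W ×ˢ W)).filter fun p =>
      (p.1.1, p.2.1) ∈ F ∧ (p.1.2, p.2.1) ∈ F ∧ (p.1.1, p.2.2) ∈ F ∧ (p.1.2, p.2.2) ∈ F).card := by
    rw [Finset.card_filter]
    push_cast
    unfold Q
    rw [Finset.sum_product, Finset.sum_product]
    refine Finset.sum_congr rfl fun u _ => Finset.sum_congr rfl fun u' _ => ?_
    rw [Finset.sum_product]
    refine Finset.sum_congr rfl fun v _ => Finset.sum_congr rfl fun v' _ => ?_
    unfold chi
    by_cases a1 : (u, v) ∈ F <;> by_cases a2 : (u', v) ∈ F <;> by_cases a3 : (u, v') ∈ F <;>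
      by_cases a4 : (u', v') ∈ F <;> simp [a1, a2, a3, a4]
  rw [h1]
  norm_cast
  refine Finset.card_le_card_of_injOn (fun p => ((p.1.1, p.2.1), (p.1.2, p.2.2))) ?_ ?_
  · rintro ⟨⟨u, u'⟩, ⟨v, v'⟩⟩ hp
    have hp := (Finset.mem_filter.1 (Finset.mem_coe.1 hp)).2
    refine Finset.mem_coe.2 (Finset.mem_filter.2 ⟨Finset.mem_product.2 ⟨hp.1, hp.2.2.2⟩, ?_⟩)
    exact ⟨hp.2.1, hp.2.2.1⟩
  · rintro ⟨⟨u, u'⟩, ⟨v, v'⟩⟩ - ⟨⟨x, x'⟩, ⟨y, y'⟩⟩ - h
    simp only [Prod.mk.injEq] at h ⊢
    tauto

/-- Few closed walks of length four use an edge of the set `U`. -/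
theorem bad_le (F U : Finset (ℕ × ℕ)) (a b : ℕ)
    (ha : ∀ u, (F.filter fun e => e.1 = u).card ≤ a)
    (hb : ∀ v, (F.filter fun e => e.2 = v).card ≤ b) :
    (N4 F).card ≤ ((N4 F).filter fun p => (p.2.1, p.1.2) ∉ U ∧ (p.1.1, p.2.2) ∉ U ∧
      p.2 ∉ U).card + 3 * (a * b * U.card) := by
  classical
  have h0 : N4 F ⊆ ((N4 F).filter fun p => (p.2.1, p.1.2) ∉ U ∧ (p.1.1, p.2.2) ∉ U ∧ p.2 ∉ U) ∪
      (((N4 F).filter fun p => (p.2.1, p.1.2) ∈ U) ∪ (((N4 F).filter fun p => (p.1.1, p.2.2) ∈ U) ∪
      ((N4 F).filter fun p => p.2 ∈ U))) := by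
    intro p hp
    simp only [Finset.mem_union, Finset.mem_filter, hp, true_and]
    tauto
  have h1 : ((N4 F).filter fun p => (p.2.1, p.1.2) ∈ U).card ≤ a * b * U.card := by
    have h2 := Finset.card_le_mul_card_image (f := fun p : (ℕ × ℕ) × (ℕ × ℕ) => (p.2.1, p.1.2))
      ((N4 F).filter fun p => (p.2.1, p.1.2) ∈ U) (a * b) ?_
    · refine h2.trans (Nat.mul_le_mul_left _ (Finset.card_le_card ?_))
      intro g hg
      obtain ⟨p, hp, rfl⟩ := Finset.mem_image.1 hg
      exact (Finset.mem_filter.1 hp).2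
    · rintro g -
      refine (Finset.card_le_card (t := (F.filter fun e => e.2 = g.2) ×ˢ
        (F.filter fun e => e.1 = g.1)) ?_).trans ?_
      · intro p hp
        simp only [N4, Finset.mem_filter, Finset.mem_product] at hp ⊢
        obtain ⟨⟨⟨⟨h3, h4⟩, -⟩, -⟩, rfl⟩ := hp
        exact ⟨⟨h3, rfl⟩, h4, rfl⟩
      · rw [Finset.card_product, mul_comm a b]
        exact Nat.mul_le_mul (hb _) (ha _)
  have h2 : ((N4 F).filter fun p => (p.1.1, p.2.2) ∈ U).card ≤ a * b * U.card := by
    have h2 := Finset.card_le_mul_card_image (f := fun p : (ℕ × ℕ) × (ℕ × ℕ) => (p.1.1, p.2.2))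
      ((N4 F).filter fun p => (p.1.1, p.2.2) ∈ U) (a * b) ?_
    · refine h2.trans (Nat.mul_le_mul_left _ (Finset.card_le_card ?_))
      intro g hg
      obtain ⟨p, hp, rfl⟩ := Finset.mem_image.1 hg
      exact (Finset.mem_filter.1 hp).2
    · rintro g -
      refine (Finset.card_le_card (t := (F.filter fun e => e.1 = g.1) ×ˢ
        (F.filter fun e => e.2 = g.2)) ?_).trans ?_
      · intro p hp
        simp only [N4, Finset.mem_filter, Finset.mem_product] at hp ⊢
        obtain ⟨⟨⟨⟨h3, h4⟩, -⟩, -⟩, rfl⟩ := hp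
        exact ⟨⟨h3, rfl⟩, h4, rfl⟩
      · rw [Finset.card_product]
        exact Nat.mul_le_mul (ha _) (hb _)
  have h3 : ((N4 F).filter fun p => p.2 ∈ U).card ≤ a * b * U.card := by
    have h2 := Finset.card_le_mul_card_image (f := fun p : (ℕ × ℕ) × (ℕ × ℕ) => p.2)
      ((N4 F).filter fun p => p.2 ∈ U) (a * b) ?_
    · refine h2.trans (Nat.mul_le_mul_left _ (Finset.card_le_card ?_))
      intro g hg
      obtain ⟨p, hp, rfl⟩ := Finset.mem_image.1 hg
      exact (Finset.mem_filter.1 hp).2
    · rintro g -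
      refine (Finset.card_le_card_of_injOn (t := (F.filter fun e => e.1 = g.1) ×ˢ
        (F.filter fun e => e.2 = g.2)) (fun p => ((p.2.1, p.1.2), (p.1.1, p.2.2))) ?_ ?_).trans ?_
      · intro p hp
        have hp := Finset.mem_coe.1 hp
        refine Finset.mem_coe.2 ?_
        simp only [N4, Finset.mem_filter, Finset.mem_product] at hp ⊢
        obtain ⟨⟨⟨⟨-, -⟩, h3, h4⟩, -⟩, rfl⟩ := hp
        exact ⟨⟨h3, rfl⟩, h4, rfl⟩
      · rintro ⟨⟨x, y⟩, z, t⟩ - ⟨⟨x', y'⟩, z', t'⟩ - h
        simp only [Prod.mk.injEq] at h ⊢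
        tauto
      · rw [Finset.card_product]
        exact Nat.mul_le_mul (ha _) (hb _)
  have h4 := (Finset.card_le_card h0).trans (Finset.card_union_le _ _)
  have h5 := Finset.card_union_le ((N4 F).filter fun p => (p.2.1, p.1.2) ∈ U)
    (((N4 F).filter fun p => (p.1.1, p.2.2) ∈ U) ∪ ((N4 F).filter fun p => p.2 ∈ U))
  have h6 := Finset.card_union_le ((N4 F).filter fun p => (p.1.1, p.2.2) ∈ U)
    ((N4 F).filter fun p => p.2 ∈ U)
  omega

/-- The edges of a game, as a finite set of pairs. -/
def edges (R : Game) : Finset (ℕ × ℕ) := (R.map Prod.fst).toFinset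

theorem mem_edges {R : Game} {p : ℕ × ℕ} : p ∈ edges R ↔ ∃ e ∈ R, e.1 = p := by
  simp [edges]

theorem card_edges_filter {R : Game} (hS : Simple R) (g : Edge → Bool) (P : ℕ × ℕ → Prop)
    [DecidablePred P] (h : ∀ e ∈ R, g e = true ↔ P e.1) :
    (R.filter g).length = ((edges R).filter P).card := by
  have h1 : ((R.filter g).map Prod.fst).Nodup := hS.sublist (List.filter_sublist.map _)
  rw [← List.length_map (f := Prod.fst), ← List.toFinset_card_of_nodup h1]
  congr 1
  ext p
  simp only [List.mem_toFinset, List.mem_map, List.mem_filter, Finset.mem_filter, mem_edges]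
  constructor
  · rintro ⟨e, ⟨h2, h3⟩, rfl⟩
    exact ⟨⟨e, h2, rfl⟩, (h e h2).1 h3⟩
  · rintro ⟨⟨e, h2, rfl⟩, h3⟩
    exact ⟨e, ⟨h2, (h e h2).2 h3⟩, rfl⟩

theorem card_edges {R : Game} (hS : Simple R) : (edges R).card = R.length := by
  have := card_edges_filter hS (fun _ => true) (fun _ => True) (by simp)
  simpa using this.symm

/-- The base of the constants. -/
def base (h K : ℕ) : ℕ := 2 * (h + 1) ^ 2 * (8 * K) ^ (h + 1)

theorem base_pos {h K : ℕ} (hK : 0 < K) : 0 < base h K := by
  unfold base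
  positivity

theorem small_ineq (h K : ℕ) (hK : 0 < K) :
    ((h : ℝ) + 1) ^ 2 * (√(1 / (base h K : ℝ) ^ 2) + 1 / (base h K : ℝ) ^ 2 * (4 * (2 * K))) <
      (1 / (4 * (2 * K))) ^ h := by
  have hKr : (1 : ℝ) ≤ K := by exact_mod_cast hK
  have hB : (0 : ℝ) < base h K := by exact_mod_cast base_pos hK
  rw [Real.sqrt_div zero_le_one, Real.sqrt_one, Real.sqrt_sq hB.le]
  have hBe : (base h K : ℝ) = 2 * ((h : ℝ) + 1) ^ 2 * (8 * K) ^ (h + 1) := by
    unfold base
    push_cast
    ring
  set x : ℝ := (h : ℝ) + 1 with hx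
  have hx1 : 1 ≤ x := by
    rw [hx]
    have : (0 : ℝ) ≤ h := Nat.cast_nonneg h
    linarith
  set y : ℝ := (8 * K : ℝ) with hy
  have hy1 : 1 < y := by rw [hy]; linarith
  have hyp : 1 ≤ y ^ h := one_le_pow₀ hy1.le
  have hy4 : (4 : ℝ) * (2 * K) = y := by rw [hy]; ring
  rw [hy4, hBe, one_div_pow, pow_succ y h]
  have e1 : x ^ 2 * (1 / (2 * x ^ 2 * (y ^ h * y)) + 1 / (2 * x ^ 2 * (y ^ h * y)) ^ 2 * y) =
      1 / (2 * (y ^ h * y)) + 1 / (4 * x ^ 2 * (y ^ h * y) * y ^ h) := by
    field_simp
    ring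
  rw [e1]
  have h2 : 1 / (2 * (y ^ h * y)) ≤ 1 / (2 * y ^ h) := by
    apply one_div_le_one_div_of_le (by positivity)
    nlinarith
  have h3 : 1 / (4 * x ^ 2 * (y ^ h * y) * y ^ h) ≤ 1 / (4 * y ^ h) := by
    apply one_div_le_one_div_of_le (by positivity)
    have h5 : 1 ≤ x ^ 2 := one_le_pow₀ hx1
    have h6 : y ^ h ≤ x ^ 2 * y ^ h := le_mul_of_one_le_left (by positivity) h5
    have h7 : x ^ 2 * y ^ h ≤ x ^ 2 * (y ^ h * y) := by
      gcongr
      exact le_mul_of_one_le_right (by positivity) hy1.le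
    have h8 : x ^ 2 * (y ^ h * y) ≤ x ^ 2 * (y ^ h * y) * y ^ h :=
      le_mul_of_one_le_right (by positivity) hyp
    nlinarith
  have h4 : 1 / (2 * y ^ h) + 1 / (4 * y ^ h) < 1 / y ^ h := by
    have : 1 / (2 * y ^ h) + 1 / (4 * y ^ h) = 3 / 4 * (1 / y ^ h) := by
      field_simp
      norm_num
    rw [this]
    have : 0 < 1 / y ^ h := by positivity
    linarith
  linarith

/-- Existence of a good candidate. -/
theorem exists_cand {α : Type} [Fintype α] (H : SimpleGraph α) (hH : H.IsAcyclic) {K q : ℕ}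
    (hK : 0 < K) {I R : Game} (hG : IsGame q I) (hS : Simple I)
    (hreg : AlmostRegular K I) (hfree : IsEmpty (H ↪g cgraph I)) {X Y : Finset ℕ}
    (hR : R = I.filter (fun e => decide (e.1.1 ∉ X ∧ e.1.2 ∉ Y))) (hlen : I.length ≤ 2 * R.length)
    {L M : ℕ → Fin q}
    (hsat : (1 - 1 / (24 * (base (Fintype.card α) K : ℝ) ^ 2)) * I.length ≤ numSat I L M) :
    ∃ c ∈ cands q R, test q (4 * base (Fintype.card α) K ^ 2) I R c = true := by
  classical
  set B := base (Fintype.card α) K with hB
  have hBpos : 0 < B := base_pos hK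
  have hBr : (1 : ℝ) ≤ B := by exact_mod_cast hBpos
  have hRI : R.Sublist I := by rw [hR]; exact List.filter_sublist
  have hSR : Simple R := hS.sublist (hRI.map _)
  have hIpos : 0 < I.length := List.length_pos_iff.2 hG.1
  have hRpos : 0 < R.length := by omega
  have hRmem : ∀ e, e ∈ R ↔ e ∈ I ∧ e.1.1 ∉ X ∧ e.1.2 ∉ Y := by
    intro e
    rw [hR, List.mem_filter, decide_eq_true_eq]
  -- the maximal degrees
  have hIne : I.toFinset.Nonempty := by
    obtain ⟨e, he⟩ := List.exists_mem_of_ne_nil I hG.1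
    exact ⟨e, List.mem_toFinset.2 he⟩
  obtain ⟨ea, hea, hamax⟩ := Finset.exists_max_image I.toFinset (fun e => degL I e.1.1) hIne
  obtain ⟨eb, heb, hbmax⟩ := Finset.exists_max_image I.toFinset (fun e => degR I e.1.2) hIne
  rw [List.mem_toFinset] at hea heb
  set a := degL I ea.1.1 with ha
  set b := degR I eb.1.2 with hb
  have ha' : ∀ u, degL I u ≤ a := by
    intro u
    by_cases h : ∃ e ∈ I, e.1.1 = u
    · obtain ⟨e, he, rfl⟩ := h
      exact hamax e (List.mem_toFinset.2 he)
    · have : degL I u = 0 := by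
        unfold degL
        rw [List.length_eq_zero_iff, List.filter_eq_nil_iff]
        intro e he
        rw [decide_eq_true_eq]
        exact fun h2 => h ⟨e, he, h2⟩
      omega
  have hb' : ∀ u, degR I u ≤ b := by
    intro u
    by_cases h : ∃ e ∈ I, e.1.2 = u
    · obtain ⟨e, he, rfl⟩ := h
      exact hbmax e (List.mem_toFinset.2 he)
    · have : degR I u = 0 := by
        unfold degR
        rw [List.length_eq_zero_iff, List.filter_eq_nil_iff]
        intro e he
        rw [decide_eq_true_eq]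
        exact fun h2 => h ⟨e, he, h2⟩
      omega
  have hapos : 0 < a := by
    rw [ha]
    unfold degL
    exact List.length_pos_of_mem (List.mem_filter.2 ⟨hea, by simp⟩)
  have hbpos : 0 < b := by
    rw [hb]
    unfold degR
    exact List.length_pos_of_mem (List.mem_filter.2 ⟨heb, by simp⟩)
  set F := edges R with hF
  have hFcard : F.card = R.length := card_edges hSR
  have hFne : F.Nonempty := Finset.card_pos.1 (by omega)
  have hdu : ∀ u, (F.filter fun e => e.1 = u).card ≤ a := by
    intro u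
    rw [← card_edges_filter hSR (fun e => decide (e.1.1 = u)) (fun p => p.1 = u) (by simp)]
    exact (degL_le R I hRI u).trans (ha' u)
  have hdv : ∀ v, (F.filter fun e => e.2 = v).card ≤ b := by
    intro v
    rw [← card_edges_filter hSR (fun e => decide (e.1.2 = v)) (fun p => p.2 = v) (by simp)]
    exact (degR_le R I hRI v).trans (hb' v)
  have hu : (a : ℝ) * (F.image Prod.fst).card ≤ (2 * K) * F.card := by
    have h1 := hreg.1 ea.1.1
    have h2 : (F.image Prod.fst).card ≤ (I.map fun e => e.1.1).toFinset.card := by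
      refine Finset.card_le_card ?_
      intro u hu
      obtain ⟨p, hp, rfl⟩ := Finset.mem_image.1 hu
      obtain ⟨e, he, rfl⟩ := mem_edges.1 hp
      exact List.mem_toFinset.2 (List.mem_map.2 ⟨e, hRI.subset he, rfl⟩)
    have h3 : a * (F.image Prod.fst).card ≤ 2 * K * F.card := by
      rw [hFcard]
      calc a * (F.image Prod.fst).card ≤ a * (I.map fun e => e.1.1).toFinset.card :=
            Nat.mul_le_mul_left _ h2
        _ ≤ K * I.length := h1
        _ ≤ K * (2 * R.length) := Nat.mul_le_mul_left _ hlen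
        _ = 2 * K * R.length := by ring
    exact_mod_cast h3
  have hv : (b : ℝ) * (F.image Prod.snd).card ≤ (2 * K) * F.card := by
    have h1 := hreg.2 eb.1.2
    have h2 : (F.image Prod.snd).card ≤ (I.map fun e => e.1.2).toFinset.card := by
      refine Finset.card_le_card ?_
      intro u hu
      obtain ⟨p, hp, rfl⟩ := Finset.mem_image.1 hu
      obtain ⟨e, he, rfl⟩ := mem_edges.1 hp
      exact List.mem_toFinset.2 (List.mem_map.2 ⟨e, hRI.subset he, rfl⟩)
    have h3 : b * (F.image Prod.snd).card ≤ 2 * K * F.card := by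
      rw [hFcard]
      calc b * (F.image Prod.snd).card ≤ b * (I.map fun e => e.1.2).toFinset.card :=
            Nat.mul_le_mul_left _ h2
        _ ≤ K * I.length := h1
        _ ≤ K * (2 * R.length) := Nat.mul_le_mul_left _ hlen
        _ = 2 * K * R.length := by ring
    exact_mod_cast h3
  have hKr : (0 : ℝ) < K := by exact_mod_cast hK
  have har : (0 : ℝ) < a := by exact_mod_cast hapos
  have hbr : (0 : ℝ) < b := by exact_mod_cast hbpos
  have hRr : (0 : ℝ) < R.length := by exact_mod_cast hRpos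
  -- many closed walks
  have hQ : (1 / (B : ℝ) ^ 2) / 2 * (F.card * a * b) < Q F := by
    by_contra hcon
    push Not at hcon
    obtain ⟨f, hf1, hf2, hf3, hf4⟩ := exists_forest_bip H hH F hFne (K := 2 * K) har hbr
      (by positivity) (fun u => by exact_mod_cast hdu u) (fun v => by exact_mod_cast hdv v)
      hu hv (κ := 1 / (B : ℝ) ^ 2) (by positivity) hcon (small_ineq _ K hK)
    refine hfree.false ⟨⟨f, hf1⟩, fun {x y} => ?_⟩
    rw [← hf2 x y]
    have key : ∀ u v, u ∈ F.image Prod.fst → v ∈ F.image Prod.snd →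
        ((u, v) ∈ I.map Prod.fst ↔ (u, v) ∈ F) := by
      intro u v hu hv
      obtain ⟨p, hp, hpu⟩ := Finset.mem_image.1 hu
      obtain ⟨p', hp', hpv⟩ := Finset.mem_image.1 hv
      obtain ⟨e, he, rfl⟩ := mem_edges.1 hp
      obtain ⟨e', he', rfl⟩ := mem_edges.1 hp'
      have h1 := ((hRmem e).1 he).2.1
      have h2 := ((hRmem e').1 he').2.2
      rw [hpu] at h1
      rw [hpv] at h2
      rw [mem_edges, List.mem_map]
      constructor
      · rintro ⟨g, hg, hg2⟩
        refine ⟨g, (hRmem g).2 ⟨hg, ?_, ?_⟩, hg2⟩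
        · rw [hg2]; exact h1
        · rw [hg2]; exact h2
      · rintro ⟨g, hg, hg2⟩
        exact ⟨g, hRI.subset hg, hg2⟩
    change (cgraph I).Adj (f x) (f y) ↔ (bip F).Adj (f x) (f y)
    cases hx : f x with
    | inl u =>
      cases hy : f y with
      | inl v => exact Iff.rfl
      | inr v => exact key u v (hf3 x u hx) (hf4 y v hy)
    | inr u =>
      cases hy : f y with
      | inl v => exact key v u (hf3 y v hy) (hf4 x u hx)
      | inr v => exact Iff.rfl
  -- unsatisfied edges
  set SP : ℕ × ℕ → Prop := fun p => ∃ e ∈ I, e.1 = p ∧ Sat L M e with hSP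
  set U := F.filter fun p => ¬ SP p with hU
  have hUcard : (U.card : ℝ) ≤ I.length / (24 * (B : ℝ) ^ 2) := by
    have h1 : U.card = (R.filter fun e => !(decide (Sat L M e))).length := by
      refine (card_edges_filter hSR _ _ fun e he => ?_).symm
      rw [Bool.not_eq_true', decide_eq_false_iff_not, not_iff_not]
      constructor
      · intro h
        exact ⟨e, hRI.subset he, rfl, h⟩
      · rintro ⟨e', he', h2, h3⟩
        rwa [unique_edge hS (hRI.subset he) he' h2.symm]
    have h2 : (R.filter fun e => !(decide (Sat L M e))).length ≤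
        (I.filter fun e => !(decide (Sat L M e))).length := (hRI.filter _).length_le
    have h3 := length_filter_not I (fun e => decide (Sat L M e))
    have h4 : (U.card : ℝ) + numSat I L M ≤ I.length := by
      have : U.card + numSat I L M ≤ I.length := by
        unfold numSat
        omega
      exact_mod_cast this
    have h5 : (1 - 1 / (24 * (B : ℝ) ^ 2)) * I.length =
        I.length - I.length / (24 * (B : ℝ) ^ 2) := by ring
    linarith
  have hbad := bad_le F U a b hdu hdv
  set G4 := (N4 F).filter fun p => (p.2.1, p.1.2) ∉ U ∧ (p.1.1, p.2.2) ∉ U ∧ p.2 ∉ U with hG4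
  have hG4card : (F.card : ℝ) * a * b < 4 * (B : ℝ) ^ 2 * G4.card := by
    have h1 : Q F ≤ G4.card + 3 * (a * b * U.card) := (Q_le F).trans (by exact_mod_cast hbad)
    have h2 : (3 : ℝ) * (a * b * U.card) ≤ 3 * (a * b * (2 * R.length / (24 * (B : ℝ) ^ 2))) := by
      have : (U.card : ℝ) ≤ 2 * R.length / (24 * (B : ℝ) ^ 2) := by
        refine hUcard.trans ?_
        gcongr
        exact_mod_cast hlen
      gcongr
    have h3 : (3 : ℝ) * (a * b * (2 * R.length / (24 * (B : ℝ) ^ 2))) =
        (R.length * a * b) / (4 * (B : ℝ) ^ 2) := by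
      field_simp
      ring
    have h4 : (1 / (B : ℝ) ^ 2) / 2 * (F.card * a * b) =
        2 * ((R.length * a * b) / (4 * (B : ℝ) ^ 2)) := by
      rw [hFcard]
      field_simp
      ring
    have h5 : (R.length * a * b : ℝ) / (4 * (B : ℝ) ^ 2) < G4.card := by linarith
    rw [div_lt_iff₀ (by positivity)] at h5
    rw [hFcard]
    linarith
  let cd : ℕ × ℕ → Cand := fun p => (p, ((L p.1 : ℕ), (M p.2 : ℕ)))
  have hscore : ∀ p0 ∈ F, (F.filter fun p => (p0, p) ∈ G4).card ≤ score q R (cd p0) := by
    intro p0 hp0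
    unfold score
    rw [← card_edges_filter hSR (fun e => decide ((p0, e.1) ∈ G4)) (fun p => (p0, p) ∈ G4)
      (by simp)]
    refine length_filter_le R _ _ fun e he h => ?_
    rw [decide_eq_true_eq] at h
    simp only [hG4, N4, Finset.mem_filter, Finset.mem_product] at h
    obtain ⟨⟨⟨h1, h2⟩, h3, h4⟩, h5, h6, h7⟩ := h
    have good : ∀ p ∈ F, p ∉ U → ∃ g ∈ R, g.1 = p ∧ Sat L M g := by
      intro p hp hpU
      obtain ⟨g, hg, hg2⟩ := mem_edges.1 hp
      have h8 : SP p := by
        by_contra h9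
        exact hpU (Finset.mem_filter.2 ⟨hp, h9⟩)
      obtain ⟨g', hg', h9, h10⟩ := h8
      have : g = g' := unique_edge hS (hRI.subset hg) hg' (hg2.trans h9.symm)
      subst this
      exact ⟨g, hg, hg2, h10⟩
    obtain ⟨e1, he1, k1, k2⟩ := good _ h3 h5
    obtain ⟨e2, he2, k3, k4⟩ := good _ h4 h6
    obtain ⟨e3, he3, k5, k6⟩ := good _ h2 h7
    have : e3 = e := unique_edge hSR he3 he k5
    subst this
    rw [consistent_iff]
    refine ⟨e1, he1, k1, e2, he2, k3, L e3.1.1, (L e3.1.1).2, ?_, M e3.1.2, k6, ?_⟩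
    · unfold Sat at k2
      rw [k1] at k2
      exact k2
    · unfold Sat at k4
      rw [k3] at k4
      exact k4
  by_contra hno
  push Not at hno
  have hlt : ∀ p0 ∈ F, 4 * B ^ 2 * score q R (cd p0) < a * b := by
    intro p0 hp0
    obtain ⟨e, he, rfl⟩ := mem_edges.1 hp0
    have h1 := hno (cd e.1) (by
      simp only [cands, List.mem_flatMap, List.mem_map, List.mem_range]
      exact ⟨e, he, _, (L e.1.1).2, _, (M e.1.2).2, rfl⟩)
    by_contra h2
    push Not at h2
    apply h1
    simp only [test, List.all_eq_true, decide_eq_true_eq]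
    intro e1 he1 e2 he2
    exact (Nat.mul_le_mul (ha' _) (hb' _)).trans h2
  have hfin : 4 * B ^ 2 * G4.card ≤ F.card * (a * b) := by
    have h1 : G4.card = ∑ p0 ∈ F, (F.filter fun p => (p0, p) ∈ G4).card := by
      rw [Finset.card_eq_sum_card_fiberwise (f := Prod.fst) (t := F)]
      · refine Finset.sum_congr rfl fun p0 _ => ?_
        refine Finset.card_bij' (i := fun p _ => p.2) (j := fun p _ => (p0, p)) ?_ ?_ ?_ ?_
        · rintro ⟨x, y⟩ h
          simp only [Finset.mem_filter] at h ⊢
          obtain ⟨h2, rfl⟩ := h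
          refine ⟨?_, h2⟩
          have := (Finset.mem_filter.1 h2).1
          exact (Finset.mem_product.1 (Finset.mem_filter.1 this).1).2
        · intro y h
          exact Finset.mem_filter.2 ⟨(Finset.mem_filter.1 h).2, rfl⟩
        · rintro ⟨x, y⟩ h
          simp only [Finset.mem_filter] at h
          obtain ⟨h2, rfl⟩ := h
          rfl
        · intro y h
          rfl
      · intro p hp
        have := (Finset.mem_filter.1 (Finset.mem_coe.1 hp)).1
        exact Finset.mem_coe.2 (Finset.mem_product.1 (Finset.mem_filter.1 this).1).1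
    rw [h1, Finset.mul_sum]
    calc ∑ p0 ∈ F, 4 * B ^ 2 * (F.filter fun p => (p0, p) ∈ G4).card
        ≤ ∑ p0 ∈ F, a * b := Finset.sum_le_sum fun p0 hp0 =>
          (Nat.mul_le_mul_left _ (hscore p0 hp0)).trans (hlt p0 hp0).le
      _ = F.card * (a * b) := by rw [Finset.sum_const, smul_eq_mul]
  have hfin' : 4 * (B : ℝ) ^ 2 * G4.card ≤ F.card * (a * b) := by exact_mod_cast hfin
  nlinarith

/-- Completeness. -/
theorem complete {α : Type} [Fintype α] (H : SimpleGraph α) (hH : H.IsAcyclic) {K q : ℕ}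
    (hK : 0 < K) {I : Game} (hG : IsGame q I) (hS : Simple I)
    (hreg : AlmostRegular K I) (hfree : IsEmpty (H ↪g cgraph I)) {L M : ℕ → Fin q}
    (hsat : (1 - 1 / (24 * (base (Fintype.card α) K : ℝ) ^ 2)) * I.length ≤ numSat I L M) :
    accept q (4 * base (Fintype.card α) K ^ 2) I = true := by
  set C := 4 * base (Fintype.card α) K ^ 2 with hC
  have hIpos : 0 < I.length := List.length_pos_iff.2 hG.1
  have hq : 0 < q := lt_of_le_of_lt (Nat.zero_le _) (L 0).2
  have key : ∀ k, 2 * ((step q C I)^[k] I).length < I.length ∨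
      ((step q C I)^[k] I).length + k ≤ I.length := by
    intro k
    induction k with
    | zero => right; simp
    | succ k ih =>
      rw [Function.iterate_succ_apply']
      set R := (step q C I)^[k] I with hR
      have hle := (step_sublist q C I R).length_le
      rcases ih with ih | ih
      · left; omega
      · by_cases hsmall : 2 * R.length < I.length
        · left; omega
        · right
          obtain ⟨L', M', X, Y, hR', -⟩ := rest_inv (C := C) hq hG hS k
          obtain ⟨c, hc, htest⟩ := exists_cand H hH hK hG hS hreg hfree (R := R) hR'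
            (by omega) hsat
          have hlt : (step q C I R).length < R.length := by
            unfold step
            cases hd : ((cands q R).filter (test q C I R)).head? with
            | none =>
              rw [List.head?_eq_none_iff] at hd
              have : c ∈ (cands q R).filter (test q C I R) := List.mem_filter.2 ⟨hc, htest⟩
              rw [hd] at this
              simp at this
            | some c' =>
              have hmem := List.mem_of_mem_head? hd
              rw [List.mem_filter] at hmem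
              have hcand := hmem.1
              simp only [cands, List.mem_flatMap, List.mem_map, List.mem_range] at hcand
              obtain ⟨e0, he0, α', -, β', -, rfl⟩ := hcand
              have h1 := length_filter_not R (fun e => near R (e0.1, (α', β')) e)
              have h2 : 0 < (R.filter fun e => near R (e0.1, (α', β')) e).length := by
                refine List.length_pos_of_mem (List.mem_filter.2 ⟨he0, ?_⟩)
                unfold near
                rw [Bool.or_eq_true, hasE_iff]
                exact Or.inl ⟨e0, he0, rfl⟩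
              change (R.filter fun e => !(near R (e0.1, (α', β')) e)).length < R.length
              omega
          omega
  unfold accept rest
  rw [decide_eq_true_eq]
  rcases key I.length with h | h <;> omega

end Pool.Agent.H697.UG
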