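import Pool.Agent.H697.Red.Main
import Pool.Agent.H697.UG.Complete

/-!
# Hardness and easiness of restricted unique games
-/

namespace Pool.Agent.H697.UG

open Pool.Agent.NPC Pool.Agent.H697.Forest Pool.Agent.H697.Exp Pool.Agent.H697.Red

/-- The promise problem of telling value at least `1 - ε` from value at most `δ`, for the unique
games with alphabet size `q` and with the property `Cl`, is `NP`-hard under polynomial-time
many-one reductions. -/
def Hard (Cl : Game → Prop) (q : ℕ) (ε δ : ℝ) : Prop :=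
  ∀ L : Set (List Bool), InNP L → ∃ f : List Bool → List Bool, PolyTime f ∧ ∀ x,
    ∃ I, f x = bits I ∧ Cl I ∧ (x ∈ L → Yes q ε I) ∧ (x ∉ L → No q δ I)

/-- Some decision problem in `P` contains all the yes-instances with the property `Cl` and none of
the no-instances with the property `Cl`. -/
def Easy (Cl : Game → Prop) (q : ℕ) (ε δ : ℝ) : Prop :=
  ∃ P : Game → Prop, InPP P ∧ ∀ I, Cl I → (Yes q ε I → P I) ∧ (No q δ I → ¬ P I)

/-- The Unique Games Conjecture for the games with the property `Cl`. -/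
def UGC (Cl : Game → Prop) : Prop :=
  ∀ ε δ : ℝ, 0 < ε → 0 < δ → ε + δ < 1 → ∃ q : ℕ, 0 < q ∧ Hard Cl q ε δ

/-- The game is simple, all degrees on each side are at most `K` times their average, and no `H i`
is an induced subgraph of the constraint graph. -/
def Free {ι : Type} {V : ι → Type} (H : ∀ i, SimpleGraph (V i)) (K : ℕ) (I : Game) : Prop :=
  Simple I ∧ AlmostRegular K I ∧ ∀ i, IsEmpty (H i ↪g cgraph I)

theorem Hard.collapse {Cl : Game → Prop} {q : ℕ} {ε δ : ℝ} (h : Hard Cl q ε δ)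
    (h' : Easy Cl q ε δ) : ∀ L : Set (List Bool), InNP L → InP L := by
  intro L hL
  obtain ⟨P, hP, hsep⟩ := h'
  obtain ⟨f, hf, hfx⟩ := h L hL
  refine InP.of_reduces ⟨f, hf, fun x => ?_⟩ hP
  obtain ⟨I, h1, h2, h5, h6⟩ := hfx x
  have hI := hsep I h2
  rw [h1, bits_mem_lang]
  constructor
  · intro hx
    exact hI.1 (h5 hx)
  · intro hacc
    by_contra hx
    exact hI.2 (h6 hx) hacc

theorem Hard.mono {Cl Cl' : Game → Prop} {q : ℕ} {ε δ ε' δ' : ℝ} (h : Hard Cl q ε δ)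
    (hCl : ∀ I, Cl I → Cl' I) (hε : ε ≤ ε') (hδ : δ ≤ δ') : Hard Cl' q ε' δ' := by
  intro L hL
  obtain ⟨f, hf, hfx⟩ := h L hL
  refine ⟨f, hf, fun x => ?_⟩
  obtain ⟨I, h1, h2, h5, h6⟩ := hfx x
  refine ⟨I, h1, hCl I h2, fun hx => ?_, fun hx => ?_⟩
  · obtain ⟨h7, L', M', h8⟩ := h5 hx
    refine ⟨h7, L', M', le_trans ?_ h8⟩
    exact mul_le_mul_of_nonneg_right (by linarith) (by positivity)
  · obtain ⟨h7, h8⟩ := h6 hx
    refine ⟨h7, fun L' M' => (h8 L' M').trans ?_⟩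
    exact mul_le_mul_of_nonneg_right hδ (by positivity)

theorem Hard.of_reduction {Cl Cl' : Game → Prop} {q : ℕ} {ε δ ε' δ' : ℝ} (h : Hard Cl q ε δ)
    {F : Game → Game} (hF : Poly F) (hCl : ∀ I, Cl I → Cl' (F I))
    (hY : ∀ I, Yes q ε I → Yes q ε' (F I)) (hN : ∀ I, No q δ I → No q δ' (F I)) :
    Hard Cl' q ε' δ' := by
  intro L hL
  obtain ⟨f, hf, hfx⟩ := h L hL
  have h1 := polyTime_opt (Poly.optMap (o := unbits Game) (f := fun _ I => F I) poly_unbits
    (hF.comp (Poly.snd Poly.id)))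
  refine ⟨_, H642R2.TMSim.polyTime_comp h1 hf, fun x => ?_⟩
  obtain ⟨I, h2, h3, h5, h6⟩ := hfx x
  refine ⟨F I, ?_, hCl I h3, fun hx => hY I (h5 hx), fun hx => hN I (h6 hx)⟩
  simp only [h2, unbits_bits, Option.map_some]

theorem Easy.of_reduction {Cl Cl' : Game → Prop} {q : ℕ} {ε δ ε' δ' : ℝ} (h : Easy Cl' q ε' δ')
    {F : Game → Game} (hF : Poly F) (hCl : ∀ I, Cl I → Cl' (F I))
    (hY : ∀ I, Yes q ε I → Yes q ε' (F I)) (hN : ∀ I, No q δ I → No q δ' (F I)) :
    Easy Cl q ε δ := by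
  obtain ⟨P, hP, hsep⟩ := h
  refine ⟨fun I => P (F I), InPP.of_poly hP hF fun _ => Iff.rfl, fun I hI => ⟨fun hy => ?_,
    fun hn => ?_⟩⟩
  · exact (hsep _ (hCl I hI)).1 (hY I hy)
  · exact (hsep _ (hCl I hI)).2 (hN I hn)

/-- The reduction, for unique games. -/
theorem exists_reduction_UG {q : ℕ} (hq : 0 < q) (g : ℕ) (ε : ℝ) {δ δ' : ℝ} (h : δ < δ')
    (h0 : 0 ≤ δ') (h1 : δ' ≤ 1) :
    ∃ F : Game → Game, Poly F ∧ ∀ I, Simple (F I) ∧ (∀ K, 2 ≤ K → AlmostRegular K (F I)) ∧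
      GirthGT (cgraph (F I)) g ∧ (Yes q ε I → Yes q ε (F I)) ∧ (No q δ I → No q δ' (F I)) := by
  obtain ⟨F, hF, hFI⟩ := exists_reduction hq g h h0 h1
  refine ⟨F, hF, fun I => ?_⟩
  obtain ⟨h2, h3, h4, h5, h6, h7, h8⟩ := hFI I
  have hgame : IsGame q I → IsGame q (F I) := by
    rintro ⟨hne, hI⟩
    refine ⟨h5 hne, fun e he => ?_⟩
    obtain ⟨e', he', heq⟩ := h6 e he
    rw [heq]
    exact hI e' he'
  refine ⟨h2, h3, h4, ?_, ?_⟩
  · rintro ⟨hG, L, M, hLM⟩
    refine ⟨hgame hG, ?_⟩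
    obtain ⟨L', M', h9⟩ := h7 L M
    refine ⟨L', M', ?_⟩
    have h10 : (0 : ℝ) < I.length := by exact_mod_cast List.length_pos_iff.2 hG.1
    have h11 : (numSat (F I) L' M' : ℝ) * I.length = numSat I L M * (F I).length := by
      exact_mod_cast h9
    have h12 : (0 : ℝ) ≤ (F I).length := by positivity
    have h13 : (1 - ε) * (F I).length * I.length ≤ numSat (F I) L' M' * I.length := by
      rw [h11]
      calc (1 - ε) * (F I).length * I.length = (1 - ε) * I.length * (F I).length := by ring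
        _ ≤ numSat I L M * (F I).length := mul_le_mul_of_nonneg_right hLM h12
    exact le_of_mul_le_mul_right h13 h10
  · rintro ⟨hG, hno⟩
    exact ⟨hgame hG, h8 hno⟩

theorem isEmpty_of_girth {α : Type} {H : SimpleGraph α} {a : α} {p : H.Walk a a}
    (hp : p.IsCycle) {g : ℕ} (hpg : p.length ≤ g) {β : Type} {G : SimpleGraph β}
    (hG : GirthGT G g) : IsEmpty (H ↪g G) := by
  constructor
  intro φ
  have h1 := hG _ (p.map φ.toHom) (hp.map φ.injective)
  rw [SimpleGraph.Walk.length_map] at h1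
  omega

end Pool.Agent.H697.UG
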