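import Pool.Agent.H697.Forest.Bip
import Pool.Graph.R_seed8.NPC.Dec

/-!
# Unique games on restricted constraint graphs: definitions
-/

namespace Pool.Agent.H697.UG

open Pool.Agent.NPC Pool.Agent.H697.Forest

/-- A constraint: the left vertex, the right vertex, and the table of the map `π` (the label `x` of
the left vertex and the label `y` of the right vertex satisfy it iff the entry number `x` of the
table is `y`). -/
abbrev Edge : Type := (ℕ × ℕ) × List ℕ

/-- A unique game, as the list of its edges. -/
abbrev Game : Type := List Edge

/-- The list is a unique game with the alphabet `0, ..., q - 1`: it is nonempty, and the table of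
every edge is a permutation of the alphabet. -/
def IsGame (q : ℕ) (I : Game) : Prop :=
  I ≠ [] ∧ ∀ e ∈ I, e.2.length = q ∧ (∀ x ∈ e.2, x < q) ∧ e.2.Nodup

/-- The labelling `L` of the left vertices and `M` of the right vertices satisfies the edge `e`. -/
def Sat {q : ℕ} (L M : ℕ → Fin q) (e : Edge) : Prop := e.2[(L e.1.1 : ℕ)]? = some (M e.1.2 : ℕ)

instance {q : ℕ} (L M : ℕ → Fin q) (e : Edge) : Decidable (Sat L M e) :=
  inferInstanceAs (Decidable (_ = _))

/-- The number of satisfied edges. -/
def numSat {q : ℕ} (I : Game) (L M : ℕ → Fin q) : ℕ := (I.filter fun e => decide (Sat L M e)).length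

/-- Yes-instances: games of value at least `1 - ε`. -/
def Yes (q : ℕ) (ε : ℝ) (I : Game) : Prop :=
  IsGame q I ∧ ∃ L M : ℕ → Fin q, (1 - ε) * I.length ≤ numSat I L M

/-- No-instances: games of value at most `δ`. -/
def No (q : ℕ) (δ : ℝ) (I : Game) : Prop :=
  IsGame q I ∧ ∀ L M : ℕ → Fin q, (numSat I L M : ℝ) ≤ δ * I.length

/-- No two edges join the same two vertices. -/
def Simple (I : Game) : Prop := (I.map Prod.fst).Nodup

/-- The constraint graph: a bipartite graph on the left vertices `Sum.inl u` and the right vertices
`Sum.inr v`. -/
def cgraph (I : Game) : SimpleGraph (ℕ ⊕ ℕ) := bip {p | p ∈ I.map Prod.fst}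

/-- The number of edges at a left vertex. -/
def degL (I : Game) (u : ℕ) : ℕ := (I.filter fun e => decide (e.1.1 = u)).length

/-- The number of edges at a right vertex. -/
def degR (I : Game) (v : ℕ) : ℕ := (I.filter fun e => decide (e.1.2 = v)).length

/-- The number of edges at a left vertex is at most `K` times the average over all left vertices
(that occur in an edge), and the same on the right side. -/
def AlmostRegular (K : ℕ) (I : Game) : Prop :=
  (∀ u, degL I u * (I.map fun e => e.1.1).toFinset.card ≤ K * I.length) ∧
  (∀ v, degR I v * (I.map fun e => e.1.2).toFinset.card ≤ K * I.length)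

/-! ### The algorithm -/

/-- Is there an edge from `u` to `v`? -/
def hasE (R : Game) (u v : ℕ) : Bool := R.any fun e => decide (e.1 = (u, v))

/-- A candidate: two vertices and their labels. -/
abbrev Cand : Type := (ℕ × ℕ) × (ℕ × ℕ)

/-- The edge `e = (u, v)` is satisfied if `u` gets its label from the right vertex of the candidate
and `v` gets its label from the left vertex of the candidate. -/
def consistent (q : ℕ) (R : Game) (c : Cand) (e : Edge) : Bool :=
  R.any fun e1 => decide (e1.1 = (e.1.1, c.1.2)) && R.any fun e2 =>
    decide (e2.1 = (c.1.1, e.1.2)) && (List.range q).any fun x =>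
      decide (e1.2[x]? = some c.2.2) && (decide (e.2[x]? = e2.2[c.2.1]?) &&
        (e2.2[c.2.1]?).isSome)

/-- The number of satisfied edges. -/
def score (q : ℕ) (R : Game) (c : Cand) : ℕ := (R.filter (consistent q R c)).length

/-- The candidate is good enough. -/
def test (q C : ℕ) (I R : Game) (c : Cand) : Bool :=
  I.all fun e => I.all fun e' => decide (degL I e.1.1 * degR I e'.1.2 ≤ C * score q R c)

/-- The edge meets the neighbourhoods of the two vertices of the candidate. -/
def near (R : Game) (c : Cand) (e : Edge) : Bool := hasE R e.1.1 c.1.2 || hasE R c.1.1 e.1.2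

/-- All candidates. -/
def cands (q : ℕ) (R : Game) : List Cand :=
  R.flatMap fun e => (List.range q).flatMap fun α => (List.range q).map fun β => (e.1, (α, β))

/-- One step: take the first good candidate and delete the two neighbourhoods. -/
def step (q C : ℕ) (I R : Game) : Game :=
  match ((cands q R).filter (test q C I R)).head? with
  | none => R
  | some c => R.filter fun e => !(near R c e)

/-- What is left at the end. -/
def rest (q C : ℕ) (I : Game) : Game := (step q C I)^[I.length] I

/-- The answer of the algorithm. -/
def accept (q C : ℕ) (I : Game) : Bool := decide (2 * (rest q C I).length < I.length)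

end Pool.Agent.H697.UG
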