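import Pool.Agent.H697.UG.Defs

/-!
# The algorithm runs in polynomial time
-/

namespace Pool.Agent.H697.UG

open Pool.Agent.NPC Pool.Agent.H697.Forest

section
variable {α : Type} [TEnc α]

theorem poly_hasE {R : α → Game} {u v : α → ℕ} (hR : Poly R) (hu : Poly u) (hv : Poly v) :
    Poly (fun a => hasE (R a) (u a) (v a)) := by
  unfold hasE
  exact Poly.any (p := fun a (e : Edge) => decide (e.1 = (u a, v a))) hR
    (Poly.decide_eq (Poly.fst (Poly.snd Poly.id)) (Poly.pair (hu.comp (Poly.fst Poly.id))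
      (hv.comp (Poly.fst Poly.id))))

theorem poly_degL {R : α → Game} {u : α → ℕ} (hR : Poly R) (hu : Poly u) :
    Poly (fun a => degL (R a) (u a)) := by
  unfold degL
  exact Poly.length (Poly.filter (p := fun a (e : Edge) => decide (e.1.1 = u a)) hR
    (Poly.decide_eq (Poly.fst (Poly.fst (Poly.snd Poly.id))) (hu.comp (Poly.fst Poly.id))))

theorem poly_degR {R : α → Game} {u : α → ℕ} (hR : Poly R) (hu : Poly u) :
    Poly (fun a => degR (R a) (u a)) := by
  unfold degR
  exact Poly.length (Poly.filter (p := fun a (e : Edge) => decide (e.1.2 = u a)) hR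
    (Poly.decide_eq (Poly.snd (Poly.fst (Poly.snd Poly.id))) (hu.comp (Poly.fst Poly.id))))

theorem poly_consistent (q : ℕ) :
    Poly (fun p : (Game × Cand) × Edge => consistent q p.1.1 p.1.2 p.2) := by
  unfold consistent
  have hR : Poly (fun p : (Game × Cand) × Edge => p.1.1) := Poly.fst (Poly.fst Poly.id)
  refine Poly.any (p := fun (p : (Game × Cand) × Edge) (e1 : Edge) =>
    decide (e1.1 = (p.2.1.1, p.1.2.1.2)) && p.1.1.any fun e2 =>
    decide (e2.1 = (p.1.2.1.1, p.2.1.2)) && (List.range q).any fun x =>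
      decide (e1.2[x]? = some p.1.2.2.2) && (decide (p.2.2[x]? = e2.2[p.1.2.2.1]?) &&
        (e2.2[p.1.2.2.1]?).isSome)) hR ?_
  have i0 : Poly (fun p : ((Game × Cand) × Edge) × Edge => p) := Poly.id
  refine Poly.and (Poly.decide_eq (Poly.fst (Poly.snd i0))
    (Poly.pair (Poly.fst (Poly.fst (Poly.snd (Poly.fst i0))))
      (Poly.snd (Poly.fst (Poly.snd (Poly.fst (Poly.fst i0))))))) ?_
  refine Poly.any (p := fun (p : ((Game × Cand) × Edge) × Edge) (e2 : Edge) =>
    decide (e2.1 = (p.1.1.2.1.1, p.1.2.1.2)) && (List.range q).any fun x =>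
      decide (p.2.2[x]? = some p.1.1.2.2.2) && (decide (p.1.2.2[x]? = e2.2[p.1.1.2.2.1]?) &&
        (e2.2[p.1.1.2.2.1]?).isSome)) (Poly.fst (Poly.fst (Poly.fst i0))) ?_
  have i1 : Poly (fun p : (((Game × Cand) × Edge) × Edge) × Edge => p) := Poly.id
  refine Poly.and (Poly.decide_eq (Poly.fst (Poly.snd i1))
    (Poly.pair (Poly.fst (Poly.fst (Poly.snd (Poly.fst (Poly.fst (Poly.fst i1))))))
      (Poly.snd (Poly.fst (Poly.snd (Poly.fst (Poly.fst i1))))))) ?_
  refine Poly.any (p := fun (p : (((Game × Cand) × Edge) × Edge) × Edge) (x : ℕ) =>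
      decide (p.1.2.2[x]? = some p.1.1.1.2.2.2) &&
        (decide (p.1.1.2.2[x]? = p.2.2[p.1.1.1.2.2.1]?) &&
        (p.2.2[p.1.1.1.2.2.1]?).isSome)) (NPC.Poly.const _) ?_
  have i2 : Poly (fun p : ((((Game × Cand) × Edge) × Edge) × Edge) × ℕ => p) := Poly.id
  have j1 : Poly (fun p : ((((Game × Cand) × Edge) × Edge) × Edge) × ℕ =>
      p.1.2.2[p.1.1.1.1.2.2.1]?) :=
    Poly.getElem? (Poly.snd (Poly.snd (Poly.fst i2)))
      (Poly.fst (Poly.snd (Poly.snd (Poly.fst (Poly.fst (Poly.fst (Poly.fst i2)))))))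
  exact Poly.and (Poly.decide_eq (Poly.getElem? (Poly.snd (Poly.snd (Poly.fst (Poly.fst i2))))
      (Poly.snd i2))
      (Poly.some (Poly.snd (Poly.snd (Poly.snd (Poly.fst (Poly.fst (Poly.fst (Poly.fst i2)))))))))
    (Poly.and (Poly.decide_eq (Poly.getElem? (Poly.snd (Poly.snd (Poly.fst (Poly.fst
      (Poly.fst i2))))) (Poly.snd i2)) j1) (Poly.isSome j1))

theorem poly_score (q : ℕ) : Poly (fun p : Game × Cand => score q p.1 p.2) := by
  unfold score
  exact Poly.length (Poly.filter (p := fun (p : Game × Cand) (e : Edge) => consistent q p.1 p.2 e)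
    (Poly.fst Poly.id) (poly_consistent q))

theorem poly_test (q C : ℕ) :
    Poly (fun p : (Game × Game) × Cand => test q C p.1.1 p.1.2 p.2) := by
  unfold test
  refine Poly.all (p := fun (p : (Game × Game) × Cand) (e : Edge) => p.1.1.all fun e' =>
    decide (degL p.1.1 e.1.1 * degR p.1.1 e'.1.2 ≤ C * score q p.1.2 p.2))
    (Poly.fst (Poly.fst Poly.id)) ?_
  refine Poly.all (p := fun (p : ((Game × Game) × Cand) × Edge) (e' : Edge) =>
    decide (degL p.1.1.1 p.2.1.1 * degR p.1.1.1 e'.1.2 ≤ C * score q p.1.1.2 p.1.2))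
    (Poly.fst (Poly.fst (Poly.fst Poly.id))) ?_
  have i : Poly (fun p : (((Game × Game) × Cand) × Edge) × Edge => p) := Poly.id
  refine Poly.decide_le (Poly.mul (poly_degL (Poly.fst (Poly.fst (Poly.fst (Poly.fst i))))
    (Poly.fst (Poly.fst (Poly.snd (Poly.fst i)))))
    (poly_degR (Poly.fst (Poly.fst (Poly.fst (Poly.fst i)))) (Poly.snd (Poly.fst (Poly.snd i)))))
    (Poly.mul (NPC.Poly.const C) ?_)
  exact (poly_score q).comp (Poly.pair (Poly.snd (Poly.fst (Poly.fst (Poly.fst i))))
    (Poly.snd (Poly.fst (Poly.fst i))))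

theorem poly_cands (q : ℕ) : Poly (cands q) := by
  unfold cands
  refine Poly.flatMap (F := fun (_ : Game) (e : Edge) => (List.range q).flatMap fun α =>
    (List.range q).map fun β => ((e.1, (α, β)) : Cand)) Poly.id ?_
  refine Poly.flatMap (F := fun (p : Game × Edge) (α : ℕ) =>
    (List.range q).map fun β => ((p.2.1, (α, β)) : Cand)) (NPC.Poly.const _) ?_
  refine NPC.Poly.map (F := fun (p : (Game × Edge) × ℕ) (β : ℕ) => ((p.1.2.1, (p.2, β)) : Cand))
    (NPC.Poly.const _) ?_
  exact Poly.pair (Poly.fst (Poly.snd (Poly.fst (Poly.fst Poly.id))))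
    (Poly.pair (Poly.snd (Poly.fst Poly.id)) (Poly.snd Poly.id))

theorem poly_step (q C : ℕ) : Poly (fun p : Game × Game => step q C p.1 p.2) := by
  have h1 : Poly (fun p : Game × Game =>
      ((cands q p.2).filter (test q C p.1 p.2)).head?) :=
    Poly.head? (Poly.filter (p := fun (p : Game × Game) (c : Cand) => test q C p.1 p.2 c)
      ((poly_cands q).comp (Poly.snd Poly.id)) (poly_test q C))
  refine (Poly.optCases (g := fun p : Game × Game => p.2)
    (h := fun (p : Game × Game) (c : Cand) => p.2.filter fun e => !(near p.2 c e)) h1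
    (Poly.snd Poly.id) ?_).congr fun p => ?_
  · refine Poly.filter (p := fun (p : (Game × Game) × Cand) (e : Edge) => !(near p.1.2 p.2 e))
      (Poly.snd (Poly.fst Poly.id)) (Poly.not ?_)
    unfold near
    have i : Poly (fun p : ((Game × Game) × Cand) × Edge => p) := Poly.id
    exact Poly.or (poly_hasE (Poly.snd (Poly.fst (Poly.fst i))) (Poly.fst (Poly.fst (Poly.snd i)))
      (Poly.snd (Poly.fst (Poly.snd (Poly.fst i)))))
      (poly_hasE (Poly.snd (Poly.fst (Poly.fst i))) (Poly.fst (Poly.fst (Poly.snd (Poly.fst i))))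
      (Poly.snd (Poly.fst (Poly.snd i))))
  · unfold step
    cases ((cands q p.2).filter (test q C p.1 p.2)).head? <;> rfl

end

theorem sz_sublist {α : Type} [TEnc α] {l l' : List α} (h : l.Sublist l') : sz l ≤ sz l' := by
  induction h with
  | slnil => exact le_rfl
  | cons a _ ih => rw [sz_list_cons]; omega
  | cons_cons a _ ih => rw [sz_list_cons, sz_list_cons]; omega

theorem step_sublist (q C : ℕ) (I R : Game) : (step q C I R).Sublist R := by
  unfold step
  cases ((cands q R).filter (test q C I R)).head? with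
  | none => exact List.Sublist.refl _
  | some c => exact List.filter_sublist

theorem iterate_sublist (q C : ℕ) (I : Game) (k : ℕ) : ((step q C I)^[k] I).Sublist I := by
  induction k with
  | zero => exact List.Sublist.refl _
  | succ k ih =>
    rw [Function.iterate_succ_apply']
    exact (step_sublist q C I _).trans ih

theorem poly_accept (q C : ℕ) : Poly (accept q C) := by
  unfold accept rest
  have h1 : Poly (fun I : Game => (step q C I)^[I.length] I) :=
    Poly.iterLen (F := fun (I : Game) (R : Game) => step q C I R) Poly.id Poly.id (poly_step q C)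
      Polynomial.X (fun I k _ => by
        rw [Polynomial.eval_X]
        exact sz_sublist (iterate_sublist q C I k))
  exact Poly.decide_lt (Poly.mul (NPC.Poly.const 2) (Poly.length h1)) (Poly.length Poly.id)

end Pool.Agent.H697.UG
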